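import Pool.Agent.H849.SEC.Defs

/-!
# Lefschetz maps of strictly semistable schemes: definitions

Let `f : Z → X` be a map of projective strictly semistable schemes such that the strata of the special
fibre of `Z` are the inverse images of the strata of the special fibre of `X` (transversally). There are
the pull-backs `f^* : H(Y^(a+1)(X)) → H(Y^(a+1)(Z))` between the cohomology of the strata. We say that
`f` is a Lefschetz map if `f^*` is surjective in all the degrees except the middle one and if the
Poincare form is nondegenerate on the image of `f^*`. Here are some examples.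

* `Z` is a complete intersection of ample divisors in `X` which is transversal to the strata (by the
  weak Lefschetz theorem and the hard Lefschetz theorem).
* `Z` is the zero scheme of a section of an ample vector bundle on `X`, transversal to the strata.
* `Z` is an ample covering of `X`, for example a cyclic covering ramified along a smooth ample divisor
  which is transversal to the strata.
* The composites of such maps.
-/

set_option autoImplicit false

namespace Pool.Agent.H849.LM

open Module Pool.Agent.Y143 Pool.Agent.H849.SEC

universe u v

section Variety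

variable {Ω : Type u} [Field Ω] {H : Type v} [AddCommGroup H] [Module Ω H] {H' : Type v}
  [AddCommGroup H'] [Module Ω H']

/-- `i : H → H'` is the pull-back for a map of smooth projective varieties `Z → Y` (`Z` of dimension
`d`): it has degree `0`, it is surjective in all the degrees except the middle degree `d`, and the
Poincare form `B'` of `Z` is nondegenerate on the image of `i`. -/
structure IsLefschetzPull (gr : ℤ → Submodule Ω H) (gr' : ℤ → Submodule Ω H') (d : ℤ)
    (B' : H' →ₗ[Ω] H' →ₗ[Ω] Ω) (i : H →ₗ[Ω] H') : Prop where
  degree : ∀ m x, x ∈ gr m → i x ∈ gr' m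
  onto : ∀ m, m ≠ d → ∀ y ∈ gr' m, ∃ x ∈ gr m, i x = y
  nondegenerate : ∀ x, (∀ y, ev B' (i x) (i y) = 0) → i x = 0

end Variety

variable {Ω : Type u} [Field Ω] {Γ Γ' : Type}

/-- The pull-backs from the cohomology of the strata of `X` to the cohomology of the strata of `Z`. -/
abbrev PullBacks (X : StrataData.{u, v} Ω Γ) (Z : StrataData.{u, v} Ω Γ') :=
  ∀ a : ℕ, X.H a →ₗ[Ω] Z.H a

/-- The pull-backs of a Lefschetz map, `Z` of relative dimension `n`. -/
structure IsLefschetzMap {X : StrataData.{u, v} Ω Γ} {Z : StrataData.{u, v} Ω Γ'} (n : ℕ)
    (f : PullBacks X Z) : Prop where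
  pull : ∀ a : ℕ, IsLefschetzPull (X.gr a) (Z.gr a) (n - a) (Z.pair a) (f a)
  res : ∀ a : ℕ, Intertwines (X.res a) (Z.res a) (f a) (f (a + 1))
  gys : ∀ a : ℕ, Intertwines (X.gys a) (Z.gys a) (f (a + 1)) (f a)

/-- The pull-backs `f` and `f'` have the same kernels. -/
def HaveSameKernels {Γ'' : Type} {X : StrataData.{u, v} Ω Γ} {Z : StrataData.{u, v} Ω Γ'}
    {Z' : StrataData.{u, v} Ω Γ''} (f : PullBacks X Z) (f' : PullBacks X Z') : Prop :=
  ∀ a, LinearMap.ker (f a) = LinearMap.ker (f' a)

end Pool.Agent.H849.LM
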