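import Pool.Agent.H849.LM.Ret

/-!
# The defects for Lefschetz maps
-/

set_option autoImplicit false

namespace Pool.Agent.H849.LM

open Module Submodule Pool.Agent.Y143 Pool.Agent.H849.SEC Pool.Agent.R942.WB

universe u v

variable {Ω : Type u} [Field Ω] [CharZero Ω] {Γ Γ₁ : Type} {N n q q₁ : ℕ}
  {X : SpecialFibre.{u, v} Ω Γ N q} {Z : SemistableModel.{u, v} Ω Γ₁ n q₁}

/-- Purity is equivalent to the vanishing of the defects. -/
theorem pure_iff_defects [IsAlgClosed Ω] (hq : 1 < q₁) (j : ℕ) :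
    IsPureIn Z j ↔ NoDefects Z j := by
  unfold NoDefects
  rw [pure_iff_E₂ Z hq j]
  refine forall_congr' fun k => forall_congr' fun hk => ?_
  have hk' : (1 : ℤ) ≤ k := by exact_mod_cast hk
  rw [kernelDefect_eq Z j k hk, cokernelDefect_eq Z j k hk,
    kap_eq_zero_iff Z.toSpecialFibre hk', cok_eq_zero_iff Z.toSpecialFibre hk']

section

variable {f : PullBacks X.toStrataData Z.toStrataData} (hf : IsLefschetzMap n f)
  (S : Submodule Ω X.C) (hS : S = LinearMap.ker (fC (Z := Z.toSpecialFibre) f))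
  (hd : ∀ r, S ≤ S.comap (X.diff r))

include hf hS

lemma kernelDefect_K (j k : ℕ) (hk : 1 ≤ k) :
    kernelDefect Z j k = kap (dK X S hd) (GK X n S) k ((j : ℤ) - n) := by
  rw [kernelDefect_eq Z j k hk]
  exact (retract (Z := Z.toSpecialFibre) hf S hS hd).kap_eq k _

lemma cokernelDefect_K (j k : ℕ) (hk : 1 ≤ k) :
    cokernelDefect Z j k = cok (dK X S hd) (GK X n S) k ((j : ℤ) - n) := by
  have hk' : (1 : ℤ) ≤ k := by exact_mod_cast hk
  rw [cokernelDefect_eq Z j k hk]
  refine (retract (Z := Z.toSpecialFibre) hf S hS hd).cok_eq k _ (fun z hz => ?_) (fun z hz => ?_)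
  · exact (zc_neg_le' Z.toSpecialFibre hk' _ hz).1
  · exact (bd_le_zc' Z.toSpecialFibre _ _ hz).1

end

lemma finrank_GK_le (S : Submodule Ω X.C) (i l : ℤ) :
    finrank Ω (GK X n S i l) ≤ finrank Ω (X.E₁ i (n + l - i)) :=
  Submodule.finrank_map_le _ _

/-- The defects are bounded by the dimensions of the terms for `X`. -/
theorem defect_le {f : PullBacks X.toStrataData Z.toStrataData} (hf : IsLefschetzMap n f) (j : ℕ) :
    DefectsAtMost X Z j := by
  intro k hk
  have hd := ker_le (Z := Z.toSpecialFibre) hf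
  have hfin : ∀ i l, FiniteDimensional Ω (GK X n (LinearMap.ker (fC (Z := Z.toSpecialFibre) f)) i l) := by
    intro i l
    unfold GK
    infer_instance
  rw [kernelDefect_K hf _ rfl hd j k hk, cokernelDefect_K hf _ rfl hd j k hk]
  constructor
  · have h1 : Zc (dK X _ hd) (GK X n _) (-k) ((j : ℤ) - n) ⊓ Bd (dK X _ hd) (GK X n _) k ((j : ℤ) - n) ≤
        GK X n (LinearMap.ker (fC (Z := Z.toSpecialFibre) f)) (-k) ((j : ℤ) - n) :=
      inf_le_left.trans inf_le_left
    have h2 := Submodule.finrank_mono h1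
    have h3 := finrank_GK_le (X := X) (n := n) (LinearMap.ker (fC (Z := Z.toSpecialFibre) f)) (-k)
      ((j : ℤ) - n)
    rw [show (n : ℤ) + (j - n) - -k = j + k by ring] at h3
    unfold kap termDim
    omega
  · have h1 : Zc (dK X _ hd) (GK X n _) k ((j : ℤ) - n) ≤
        GK X n (LinearMap.ker (fC (Z := Z.toSpecialFibre) f)) k ((j : ℤ) - n) := inf_le_left
    have h2 := Submodule.finrank_mono h1
    have h3 := finrank_GK_le (X := X) (n := n) (LinearMap.ker (fC (Z := Z.toSpecialFibre) f)) k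
      ((j : ℤ) - n)
    rw [show (n : ℤ) + (j - n) - k = j - k by ring] at h3
    unfold cok termDim
    omega

section

variable {Γ₂ : Type} {q₂ : ℕ} {Z' : SemistableModel.{u, v} Ω Γ₂ n q₂}

lemma ker_fC_eq {f : PullBacks X.toStrataData Z.toStrataData}
    {f' : PullBacks X.toStrataData Z'.toStrataData} (h : HaveSameKernels f f') :
    LinearMap.ker (fC (Z := Z.toSpecialFibre) f) = LinearMap.ker (fC (Z := Z'.toSpecialFibre) f') := by
  ext x
  have key : ∀ a, f a (x a) = 0 ↔ f' a (x a) = 0 := by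
    intro a
    rw [← LinearMap.mem_ker, h a, LinearMap.mem_ker]
  rw [LinearMap.mem_ker, LinearMap.mem_ker]
  constructor
  · intro hx
    funext a
    exact (key a).1 (congrFun hx a)
  · intro hx
    funext a
    exact (key a).2 (congrFun hx a)

/-- The defects only depend on the kernels of the pull-backs. -/
theorem same_defects {f : PullBacks X.toStrataData Z.toStrataData}
    {f' : PullBacks X.toStrataData Z'.toStrataData} (hf : IsLefschetzMap n f)
    (hf' : IsLefschetzMap n f') (h : HaveSameKernels f f') (j : ℕ) : SameDefects Z Z' j := by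
  intro k hk
  have hd := ker_le (Z := Z.toSpecialFibre) hf
  rw [kernelDefect_K hf _ rfl hd j k hk, cokernelDefect_K hf _ rfl hd j k hk,
    kernelDefect_K hf' _ (ker_fC_eq h) hd j k hk, cokernelDefect_K hf' _ (ker_fC_eq h) hd j k hk]
  exact ⟨rfl, rfl⟩

end

end Pool.Agent.H849.LM
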