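import Pool.Agent.H849.LM.Defs
import Pool.Agent.H849.SEC.Gen

/-!
# A Lefschetz map gives a direct summand
-/

set_option autoImplicit false

namespace Pool.Agent.H849.LM

open Module Submodule Pool.Agent.Y143 Pool.Agent.H849.SEC Pool.Agent.R942.WB

universe u v

variable {Ω : Type u} [Field Ω] [CharZero Ω] {Γ Γ' : Type} {N n q q' : ℕ}
  {X : SpecialFibre.{u, v} Ω Γ N q} {Z : SpecialFibre.{u, v} Ω Γ' n q'}

section Stratum

variable {f : PullBacks X.toStrataData Z.toStrataData} (hf : IsLefschetzMap n f)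

variable (f) in
/-- The classes orthogonal to the image of the pull-back. -/
def van (a : ℕ) : Submodule Ω (Z.H a) where
  carrier := {z | ∀ x, Z.pair a z (f a x) = 0}
  add_mem' hx hy x := by rw [map_add, LinearMap.add_apply, hx x, hy x, add_zero]
  zero_mem' x := by simp
  smul_mem' c z hz x := by rw [map_smul, LinearMap.smul_apply, hz x, smul_zero]

include hf

lemma pull_gr {a : ℕ} {m : ℤ} {x : X.H a} (hx : x ∈ X.gr a m) : f a x ∈ Z.gr a m :=
  (hf.pull a).degree m x hx

lemma pull_res (a : ℕ) (x : X.H a) : f (a + 1) (X.res a x) = Z.res a (f a x) := hf.res a x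

lemma pull_gys (a : ℕ) (x : X.H (a + 1)) : f a (X.gys a x) = Z.gys a (f (a + 1) x) := hf.gys a x

/-- The symmetry of the orthogonality relation. -/
lemma pair_van {a : ℕ} {z : Z.H a} (hz : z ∈ van f a) (x : X.H a) : Z.pair a (f a x) z = 0 := by
  refine X.gr_induction (P := fun x => Z.pair a (f a x) z = 0) (by simp)
    (fun x y hx hy => by rw [map_add, map_add, LinearMap.add_apply, hx, hy, add_zero])
    (fun m x hx => ?_) x
  have h1 := Z.pair_symm a m (f a x) z (pull_gr hf hx)
  have h2 := hz x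
  rw [h1] at h2
  exact (mul_eq_zero.1 h2).resolve_left (zpow_ne_zero _ (neg_ne_zero.2 one_ne_zero))

lemma pull_eq_zero {a : ℕ} {x : X.H a} (h : f a x ∈ van f a) : f a x = 0 :=
  (hf.pull a).nondegenerate x h

/-- Homogeneous elements decompose. -/
lemma exists_dec {a : ℕ} {m : ℤ} {z : Z.H a} (hz : z ∈ Z.gr a m) :
    ∃ x ∈ X.gr a m, z - f a x ∈ van f a := by
  by_cases hm : m = (n : ℤ) - a
  · let I : Submodule Ω (Z.H a) := (X.gr a m).map (f a)
    let φ : I →ₗ[Ω] Module.Dual Ω I :=
      ((Z.pair a).domRestrict₁₂ I I)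
    have hdeg : ∀ z' ∈ Z.gr a m, (∀ y ∈ X.gr a m, Z.pair a z' (f a y) = 0) → z' ∈ van f a := by
      intro z' hz' h y
      refine X.gr_induction (P := fun y => Z.pair a z' (f a y) = 0) (by simp)
        (fun x y hx hy => by rw [map_add, map_add, hx, hy, add_zero]) (fun m' y hy => ?_) y
      by_cases hmm : m' = m
      · subst hmm
        exact h y hy
      · exact Z.pair_gr a m m' _ _ hz' (pull_gr hf hy) (by omega)
    have hinj : Function.Injective φ := by
      rw [← LinearMap.ker_eq_bot, LinearMap.ker_eq_bot']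
      rintro ⟨_, x, hx, rfl⟩ h
      have h1 : f a x ∈ van f a := by
        apply hdeg _ (pull_gr hf hx)
        intro y hy
        exact LinearMap.congr_fun h ⟨f a y, y, hy, rfl⟩
      have h2 := pull_eq_zero hf h1
      exact Subtype.ext h2
    have hsurj : Function.Surjective φ := by
      have h1 : finrank Ω I = finrank Ω (Module.Dual Ω I) := (Subspace.dual_finrank_eq).symm
      exact (LinearMap.injective_iff_surjective_of_finrank_eq_finrank h1).1 hinj
    obtain ⟨⟨_, x, hx, rfl⟩, hu⟩ := hsurj ((Z.pair a z).domRestrict I)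
    refine ⟨x, hx, hdeg _ (Submodule.sub_mem _ hz (pull_gr hf hx)) fun y hy => ?_⟩
    have h1 := LinearMap.congr_fun hu ⟨f a y, y, hy, rfl⟩
    have h2 : Z.pair a (f a x) (f a y) = Z.pair a z (f a y) := h1
    rw [map_sub, LinearMap.sub_apply, h2, sub_self]
  · obtain ⟨x, hx, rfl⟩ := (hf.pull a).onto m hm z hz
    exact ⟨x, hx, by rw [sub_self]; exact Submodule.zero_mem _⟩

/-- The orthogonal complement lives in the middle degree. -/
lemma van_zero {a : ℕ} {m : ℤ} (hm : m ≠ (n : ℤ) - a) {z : Z.H a} (hz : z ∈ Z.gr a m)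
    (h : z ∈ van f a) : z = 0 := by
  obtain ⟨x, hx, rfl⟩ := (hf.pull a).onto m hm z hz
  exact pull_eq_zero hf h

lemma van_res {a : ℕ} {z : Z.H a} (h : z ∈ van f a) : Z.res a z ∈ van f (a + 1) := by
  intro y
  rw [Z.pair_res, ← pull_gys hf]
  exact h _

lemma van_gys {a : ℕ} {z : Z.H (a + 1)} (h : z ∈ van f (a + 1)) : Z.gys a z ∈ van f a := by
  intro y
  have h1 : Z.pair a (f a y) (Z.gys a z) = 0 := by
    rw [← Z.pair_res, ← pull_res hf]
    exact pair_van hf h _
  refine X.gr_induction (P := fun y => Z.pair a (Z.gys a z) (f a y) = 0) (by simp)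
    (fun x y hx hy => by rw [map_add, map_add, hx, hy, add_zero]) (fun m y hy => ?_) y
  have h1 : Z.pair a (f a y) (Z.gys a z) = 0 := by
    rw [← Z.pair_res, ← pull_res hf]
    exact pair_van hf h _
  rw [Z.pair_symm a m (f a y) _ (pull_gr hf hy), h1, mul_zero]

lemma isCompl (a : ℕ) : IsCompl (LinearMap.range (f a)) (van f a) := by
  constructor
  · rw [Submodule.disjoint_def]
    rintro _ ⟨x, rfl⟩ h
    exact pull_eq_zero hf h
  · rw [codisjoint_iff_le_sup]
    intro z _
    refine Z.gr_induction (P := fun z => z ∈ LinearMap.range (f a) ⊔ van f a)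
      (Submodule.zero_mem _) (fun x y hx hy => Submodule.add_mem _ hx hy) (fun m z hz => ?_) z
    obtain ⟨x, _, hx⟩ := exists_dec hf hz
    have h1 : z = f a x + (z - f a x) := by abel
    rw [h1]
    exact Submodule.add_mem_sup ⟨x, rfl⟩ hx

lemma exists_P (a : ℕ) : ∃ P : Z.H a →ₗ[Ω] X.H a, ∀ z, z - f a (P z) ∈ van f a := by
  obtain ⟨s, hs⟩ := (f a).rangeRestrict.exists_rightInverse_of_surjective
    (LinearMap.range_rangeRestrict _)
  refine ⟨s ∘ₗ Submodule.projectionOnto _ _ (isCompl hf a), fun z => ?_⟩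
  have h1 := LinearMap.congr_fun hs (Submodule.projectionOnto _ _ (isCompl hf a) z)
  have h2 := congrArg Subtype.val h1
  have h3 : f a ((s ∘ₗ Submodule.projectionOnto _ _ (isCompl hf a)) z) =
      Submodule.projectionOnto _ _ (isCompl hf a) z := h2
  rw [h3, ← Submodule.projectionOnto_apply_eq_zero_iff (isCompl hf a), map_sub,
    Submodule.projectionOnto_apply_left, sub_self]

end Stratum

section Fam

/-- The pull-back on families. -/
def fC (f : PullBacks X.toStrataData Z.toStrataData) : X.C →ₗ[Ω] Z.C where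
  toFun x a := f a (x a)
  map_add' x y := by funext a; exact map_add (f a) _ _
  map_smul' s x := by funext a; exact map_smul (f a) _ _

variable {f : PullBacks X.toStrataData Z.toStrataData} (hf : IsLefschetzMap n f)

lemma fC_apply (x : X.C) (a : ℕ) : fC f x a = f a (x a) := rfl

include hf

lemma fC_diff (r : ℤ) (x : X.C) : fC f (X.diff r x) = Z.diff r (fC f x) := by
  funext a
  rw [Z.diff_apply, fC_apply, X.diff_apply]
  by_cases h : InColumn (r + 1) a
  · rw [X.cut_of h, Z.cut_of h]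
    cases a with
    | zero =>
      show f 0 ((0 : X.H 0) + X.gys 0 (x 1)) = (0 : Z.H 0) + Z.gys 0 (f 1 (x 1))
      rw [map_add, map_zero]
      congr 1
      exact pull_gys hf 0 (x 1)
    | succ a =>
      show f (a + 1) (X.res a (x a) + X.gys (a + 1) (x (a + 2))) =
        Z.res a (f a (x a)) + Z.gys (a + 1) (f (a + 2) (x (a + 2)))
      rw [map_add, pull_res hf, pull_gys hf]
  · rw [X.cut_of_not h, Z.cut_of_not h, map_zero]

lemma fC_mem {r w : ℤ} {x : X.C} (hx : x ∈ X.E₁ r w) : fC f x ∈ Z.E₁ r w := by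
  intro a
  refine ⟨pull_gr hf (hx a).1, fun h => ?_⟩
  rw [fC_apply, (hx a).2 h, map_zero]

omit hf in
variable (f) in
/-- The families orthogonal to the image of the pull-back. -/
def IsVan (z : Z.C) : Prop := ∀ a, z a ∈ van f a

lemma isVan_diff (r : ℤ) {z : Z.C} (h : IsVan f z) : IsVan f (Z.diff r z) := by
  intro a
  rw [Z.diff_apply]
  by_cases hc : InColumn (r + 1) a
  · rw [Z.cut_of hc]
    cases a with
    | zero =>
      show (0 : Z.H 0) + Z.gys 0 (z 1) ∈ _
      rw [zero_add]
      exact van_gys hf (h 1)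
    | succ a =>
      show Z.res a (z a) + Z.gys (a + 1) (z (a + 2)) ∈ _
      exact Submodule.add_mem _ (van_res hf (h a)) (van_gys hf (h (a + 2)))
  · rw [Z.cut_of_not hc]
    exact Submodule.zero_mem _

lemma isVan_zero {r w : ℤ} (h : r + w ≠ n) {z : Z.C} (hz : z ∈ Z.E₁ r w) (hv : IsVan f z) :
    z = 0 := by
  funext a
  exact van_zero hf (by omega) (hz a).1 (hv a)

lemma fC_eq_zero {x : X.C} (h : IsVan f (fC f x)) : fC f x = 0 := by
  funext a
  exact pull_eq_zero hf (h a)

omit hf in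
lemma IsVan.sub {x y : Z.C} (hx : IsVan f x) (hy : IsVan f y) : IsVan f (x - y) :=
  fun a => Submodule.sub_mem _ (hx a) (hy a)

omit hf in
lemma isVan_zero' : IsVan f (0 : Z.C) := fun _ => Submodule.zero_mem _

/-- A lift of the projection to the image of the pull-back. -/
noncomputable def PC : Z.C →ₗ[Ω] X.C where
  toFun z a := (exists_P hf a).choose (z a)
  map_add' x y := by funext a; exact map_add (exists_P hf a).choose _ _
  map_smul' s x := by funext a; exact map_smul (exists_P hf a).choose _ _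

lemma isVan_sub (z : Z.C) : IsVan f (z - fC f (PC hf z)) :=
  fun a => (exists_P hf a).choose_spec (z a)

/-- Homogeneous families have homogeneous lifts. -/
lemma exists_lift {r w : ℤ} {z : Z.C} (hz : z ∈ Z.E₁ r w) :
    ∃ x ∈ X.E₁ r w, IsVan f (z - fC f x) := by
  have h : ∀ a, ∃ x ∈ X.gr a (w + r - a), z a - f a x ∈ van f a ∧ (¬ InColumn r a → x = 0) := by
    intro a
    by_cases hc : InColumn r a
    · obtain ⟨x, hx, hv⟩ := exists_dec hf (hz a).1
      exact ⟨x, hx, hv, fun h => absurd hc h⟩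
    · refine ⟨0, Submodule.zero_mem _, ?_, fun _ => rfl⟩
      rw [(hz a).2 hc, map_zero, sub_zero]
      exact Submodule.zero_mem _
  choose x hx hv h0 using h
  exact ⟨x, fun a => ⟨hx a, h0 a⟩, fun a => hv a⟩

/-! ### The quotient complex -/

omit hf in
/-- The differential on the quotient. -/
noncomputable def dK (X : SpecialFibre.{u, v} Ω Γ N q) (S : Submodule Ω X.C)
    (hS : ∀ r, S ≤ S.comap (X.diff r)) (r : ℤ) : Module.End Ω (X.C ⧸ S) :=
  S.mapQ S (X.diff r) (hS r)

omit hf in
/-- The grading on the quotient. -/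
noncomputable def GK (X : SpecialFibre.{u, v} Ω Γ N q) (n : ℕ) (S : Submodule Ω X.C) (i l : ℤ) :
    Submodule Ω (X.C ⧸ S) :=
  (X.E₁ i (n + l - i)).map S.mkQ

lemma ker_le (r : ℤ) : LinearMap.ker (fC f) ≤ (LinearMap.ker (fC f)).comap (X.diff r) := by
  intro x hx
  rw [Submodule.mem_comap, LinearMap.mem_ker, fC_diff hf, LinearMap.mem_ker.1 hx, map_zero]

theorem retract (S : Submodule Ω X.C) (hS : S = LinearMap.ker (fC f))
    (hd : ∀ r, S ≤ S.comap (X.diff r)) :
    Retract Z.diff Z.tot (dK X S hd) (GK X n S) (S.liftQ (fC f) hS.le) (S.mkQ ∘ₗ PC hf) := by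
  have hmk : ∀ x y : X.C, IsVan f (fC f x - fC f y) → S.mkQ x = S.mkQ y := by
    intro x y h
    rw [← sub_eq_zero, ← map_sub, Submodule.mkQ_apply, Submodule.Quotient.mk_eq_zero, hS,
      LinearMap.mem_ker]
    rw [← map_sub] at h
    exact fC_eq_zero hf h
  have hpj : ∀ x, IsVan f (fC f (PC hf (fC f x)) - fC f x) := by
    intro x
    have := isVan_sub hf (fC f x)
    intro a
    have h1 := Submodule.neg_mem _ (this a)
    have h2 : -((fC f x - fC f (PC hf (fC f x))) a) = (fC f (PC hf (fC f x)) - fC f x) a := by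
      simp only [Pi.sub_apply, neg_sub]
    rwa [h2] at h1
  have hpd : ∀ i z, IsVan f (fC f (PC hf (Z.diff i z)) - fC f (X.diff i (PC hf z))) := by
    intro i z
    have h1 := isVan_sub hf (Z.diff i z)
    have h2 := isVan_diff hf i (isVan_sub hf z)
    have h3 := h2.sub h1
    have h4 : Z.diff i (z - fC f (PC hf z)) - (Z.diff i z - fC f (PC hf (Z.diff i z))) =
        fC f (PC hf (Z.diff i z)) - fC f (X.diff i (PC hf z)) := by
      rw [map_sub, fC_diff hf]
      abel
    rwa [h4] at h3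
  have hp0 : ∀ z, (S.mkQ ∘ₗ PC hf) z = 0 → IsVan f z := by
    intro z h
    have h1 : PC hf z ∈ S := by
      rwa [LinearMap.comp_apply, Submodule.mkQ_apply, Submodule.Quotient.mk_eq_zero] at h
    rw [hS, LinearMap.mem_ker] at h1
    have h2 := isVan_sub hf z
    rwa [h1, sub_zero] at h2
  have hd' : ∀ i z, (S.mkQ ∘ₗ PC hf) (Z.diff i z) = dK X S hd i ((S.mkQ ∘ₗ PC hf) z) :=
    fun i z => hmk _ _ (hpd i z)
  refine ⟨?_, ?_, ?_, ?_, hd', ?_, ?_⟩
  · intro k
    obtain ⟨x, rfl⟩ := S.mkQ_surjective k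
    exact hmk _ _ (hpj x)
  · rintro i l _ ⟨x, hx, rfl⟩
    exact fC_mem hf hx
  · intro i l z hz
    obtain ⟨x, hx, hv⟩ := exists_lift hf hz
    refine ⟨x, hx, hmk _ _ ?_⟩
    have h1 := (isVan_sub hf z).sub hv
    have h2 : z - fC f (PC hf z) - (z - fC f x) = fC f x - fC f (PC hf z) := by abel
    rwa [h2] at h1
  · intro i k
    obtain ⟨x, rfl⟩ := S.mkQ_surjective k
    exact fC_diff hf i x
  · intro i l z hz h
    by_cases hl : i + ((n : ℤ) + l - i) = n
    · exact isVan_zero hf (r := i + 1) (w := (n : ℤ) + l - i) (by omega) (Z.diff_mem hz)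
        (isVan_diff hf i (hp0 z h))
    · rw [isVan_zero hf hl hz (hp0 z h), map_zero]
  · intro i l
    unfold SpecialFibre.tot
    have := Z.E₁_neg i (n + l - i)
    rwa [show (n : ℤ) + l - i + 2 * i = n + l - -i by ring] at this

end Fam

end Pool.Agent.H849.LM
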